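import Pool.Agent.X61.RI.Disc
import Pool.Agent.X174.WinCurve
import Pool.Agent.X283.DA.Pack

/-!
# Szpiro's inequality in one-parameter families for ALL curves whose multiplicative part of the conductor is the denominator
of an approximation

The question (polynomial bounds for the Shimura map) is equivalent to Szpiro's conjecture `|D| ≤ C N ^ κ` for the minimal
discriminant `D` and the conductor `N` of the elliptic curves over `ℚ`.

Let `K` be a number field and `P / Q` a rational function over `K` in lowest terms, of degree `d = max (deg P) (deg Q)`, with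
`q ≥ 3` different poles in `K ∪ {∞}`, and `M > d / q`. We consider the elliptic curves over `K` (all of them, in particular all
twists) whose `j`-invariant is a value of `P / Q` at a point of `K`, for example (`d = 6`, `q = 3`) those with full 2-torsion and
their twists. For such a curve let `m` be the product of the norms of the primes of potentially multiplicative reduction.

There is `s < 2 / q` such that for almost all `x ∈ ℝ ^ k` ALL these curves, with finitely many values of `m` as exceptions, for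
which `m x_i` is within `m ^ (-θ_i)` of `y_i` modulo `1` for all `i` satisfy `log |D| ≤ C + M log m + 12 log A` and
`[K : ℚ] h(j) ≤ C + M log m` (`|D|` the norm of the minimal discriminant, `A` the product of the norms of the primes of additive
reduction), if `θ_1 + … + θ_k > s`. So for `k = 1`, for example, the curves for which `m` is a denominator of a convergent of a
typical real number `x`, or only `‖m x‖ ≤ m ^ (-θ)` with a `θ > s`; the set of the `x` for which this fails has Hausdorff
dimension at most `(1 + s) / (1 + θ)`.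
-/

set_option autoImplicit false

namespace Pool.Agent.Results.MP_bde085_nt.SzpiroAtDenominators

open NumberField IsDedekindDomain Polynomial Filter Topology MeasureTheory
open Pool.Agent.X61.RI (IsPole logDisc logAdditive)

section Defs

variable {K : Type} [Field K] [NumberField K]

/-- the `j`-invariant of the curve is a value of `P / Q` -/
def InFamily (P Q : K[X]) (W : WeierstrassCurve K) [W.IsElliptic] : Prop :=
  ∃ t : K, Q.eval t ≠ 0 ∧ W.j = P.eval t / Q.eval t

/-- the product of the norms of the primes of potentially multiplicative reduction, that is, of the primes in the denominator of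
the `j`-invariant -/
noncomputable def multNorm (W : WeierstrassCurve K) [W.IsElliptic] : ℕ :=
  ∏ᶠ (v : HeightOneSpectrum (𝓞 K)) (_ : v ∈ {v : HeightOneSpectrum (𝓞 K) | 1 < v.valuation K W.j}), Ideal.absNorm v.asIdeal

/-- the same for an element of `K` -/
noncomputable def denN (x : K) : ℕ := ∏ v ∈ (Pool.Agent.X61.RI.pole_finite x).toFinset, Ideal.absNorm v.asIdeal

lemma denN_eq (x : K) : ((denN x : ℕ) : ℝ) = Pool.Agent.X174.WinCurve.den x := by
  unfold denN
  push_cast
  rfl

lemma multNorm_eq (W : WeierstrassCurve K) [W.IsElliptic] : multNorm W = denN W.j := by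
  have hsf := Pool.Agent.X61.RI.pole_finite W.j
  have e : {v : HeightOneSpectrum (𝓞 K) | 1 < v.valuation K W.j} = (hsf.toFinset : Set (HeightOneSpectrum (𝓞 K))) :=
    (Set.Finite.coe_toFinset hsf).symm
  unfold multNorm
  rw [e, finprod_mem_coe_finset]
  rfl

/-- Szpiro's inequality (and the bound for the height of the `j`-invariant) with the exponent `M` and the constant `C` for ALL
curves of the family with `m = A` -/
def SzpiroAt (P Q : K[X]) (M C : ℝ) (A : ℕ) : Prop :=
  ∀ (W : WeierstrassCurve K) [W.IsElliptic], InFamily P Q W → multNorm W = A →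
    Height.logHeight₁ W.j ≤ C + M * Real.log A ∧ logDisc W ≤ C + M * Real.log A + 12 * logAdditive W

end Defs

lemma num_ne {K : Type} [Field K] {P Q : K[X]} (hPQ : IsCoprime P Q) {q : ℕ} (hq : 3 ≤ q)
    {c : Fin q → Option K} (hc : ∀ l, IsPole P Q (c l)) : P ≠ 0 := by
  rintro rfl
  have h0 := hc ⟨0, by omega⟩
  have hu : IsUnit Q := isCoprime_zero_left.1 hPQ
  rcases hco : c ⟨0, by omega⟩ with _ | a
  · rw [hco] at h0
    have h1 : Q.natDegree < (0 : K[X]).natDegree := h0
    rw [natDegree_zero] at h1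
    omega
  · rw [hco] at h0
    have h1 : Q.eval a = 0 := h0
    obtain ⟨b, hb, hbQ⟩ := Polynomial.isUnit_iff.1 hu
    rw [← hbQ, eval_C] at h1
    exact hb.ne_zero h1

/-- few values of `m` are bad -/
theorem sparse (K : Type) [Field K] [NumberField K] (P Q : K[X]) (hQ : Q ≠ 0) (hPQ : IsCoprime P Q) (q : ℕ)
    (hq : 3 ≤ q) (c : Fin q → Option K) (hinj : Function.Injective c) (hc : ∀ l, IsPole P Q (c l)) (M : ℝ)
    (hM : ((max P.natDegree Q.natDegree : ℕ) : ℝ) / q < M) :
    ∃ s C : ℝ, 0 ≤ s ∧ s < 2 / q ∧ Pool.Agent.X283.DA.Sparse {A | ¬ SzpiroAt P Q M C A} s := by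
  classical
  have hP := num_ne hPQ hq hc
  obtain ⟨ν, C, hν, hν1, hcount⟩ := Pool.Agent.X174.WinCurve.bad_count hP hQ hPQ hq hinj hc hM
  obtain ⟨C₀, hC₀⟩ := Pool.Agent.X61.RI.logDisc_le K
  refine ⟨2 / q - ν, max C (C + C₀), by linarith, by linarith, fun ε hε => ?_⟩
  obtain ⟨D, hD⟩ := hcount ε hε
  refine ⟨D, fun X hX => ?_⟩
  obtain ⟨hfin, hcard⟩ := hD X hX
  have hsub : {A : ℕ | A ∈ {A | ¬ SzpiroAt P Q M (max C (C + C₀)) A} ∧ (A : ℝ) ≤ X} ⊆
      (fun t => denN (P.eval t / Q.eval t)) ''
        {t : K | t ∈ Pool.Agent.X174.WinCurve.Bad P Q M C ∧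
          Pool.Agent.X174.WinCurve.den (P.eval t / Q.eval t) ≤ X} := by
    rintro A ⟨hA, hAX⟩
    by_contra hcon
    refine hA fun W _ hW hm => ?_
    obtain ⟨t, ht, hj⟩ := hW
    rw [multNorm_eq, hj] at hm
    have hmR : Pool.Agent.X174.WinCurve.den (P.eval t / Q.eval t) = (A : ℝ) := by rw [← denN_eq, hm]
    have h3 : Height.logHeight₁ W.j ≤ C + M * Real.log (A : ℝ) := by
      by_contra hlt
      rw [not_le] at hlt
      refine hcon ⟨t, ⟨⟨ht, ?_⟩, ?_⟩, hm⟩
      · rw [hmR, ← hj]
        exact hlt
      · rw [hmR]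
        exact hAX
    have h4 := hC₀ W
    have h5 := le_max_left C (C + C₀)
    have h6 := le_max_right C (C + C₀)
    constructor <;> linarith
  refine ⟨(hfin.image _).subset hsub, le_trans ?_ hcard⟩
  exact_mod_cast (Set.ncard_le_ncard hsub (hfin.image _)).trans (Set.ncard_image_le hfin)

/-- For all large natural numbers `A` such that `A x_i` is within `A ^ (-θ_i)` of `y_i` modulo `1` for all `i`, ALL curves of the
family with `m = A` satisfy Szpiro's inequality with the exponent `M` and the constant `C`. -/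
def SzpiroAtAll {K : Type} [Field K] [NumberField K] (P Q : K[X]) (M C : ℝ) {k : ℕ} (x y θ : Fin k → ℝ) : Prop :=
  ∃ A₀ : ℕ, ∀ A : ℕ, A₀ ≤ A → (∀ i, ∃ p : ℤ, |(A : ℝ) * x i - p - y i| ≤ (A : ℝ) ^ (-θ i)) → SzpiroAt P Q M C A

/-- **Theorem.** Let `K` be a number field, `P / Q` a rational function over `K` in lowest terms, `c_1, …, c_q` different poles of
it in `K ∪ {∞}`, `q ≥ 3`, and `M > max (deg P) (deg Q) / q`. There are `0 ≤ s < 2 / q` and `C` such that:
(1) For all `y, θ ∈ ℝ ^ k` with `θ_i ≥ 0` and `θ_1 + … + θ_k > s` and almost all `x ∈ ℝ ^ k` there is `A₀` such that ALL elliptic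
curves over `K` whose `j`-invariant is a value of `P / Q`, with `m ≥ A₀`, `m` the product of the norms of the primes of
potentially multiplicative reduction, and with `m x_i` within `m ^ (-θ_i)` of `y_i` modulo `1` for `i ≤ k`, satisfy
`[K : ℚ] h(j) ≤ C + M log m` and `log |D| ≤ C + M log m + 12 log A`.
(2) For all `θ ≥ 0` and `y` the same is true (with `k = 1`) for all real `x` outside a set of Hausdorff dimension at most
`(1 + s) / (1 + θ)`. -/
theorem result (K : Type) [Field K] [NumberField K] (P Q : K[X]) (hQ : Q ≠ 0) (hPQ : IsCoprime P Q) (q : ℕ)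
    (hq : 3 ≤ q) (c : Fin q → Option K) (hinj : Function.Injective c) (hc : ∀ l, IsPole P Q (c l)) (M : ℝ)
    (hM : ((max P.natDegree Q.natDegree : ℕ) : ℝ) / q < M) :
    ∃ s C : ℝ, 0 ≤ s ∧ s < 2 / q ∧
      (∀ (k : ℕ) (θ y : Fin k → ℝ), (∀ i, 0 ≤ θ i) → s < ∑ i, θ i →
        ∀ᵐ x : Fin k → ℝ, SzpiroAtAll P Q M C x y θ) ∧
      (∀ θ y : ℝ, 0 ≤ θ → ∃ E : Set ℝ, dimH E ≤ ENNReal.ofReal ((1 + s) / (1 + θ)) ∧
        ∀ x : ℝ, x ∉ E → SzpiroAtAll P Q M C (fun _ : Fin 1 => x) (fun _ => y) (fun _ => θ)) := by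
  obtain ⟨s, C, hs, hsq, hsp⟩ := sparse K P Q hQ hPQ q hq c hinj hc M hM
  obtain ⟨-, -, h3, h4⟩ := Pool.Agent.X283.DA.pack (fun A => SzpiroAt P Q M C A) hs hsp
  refine ⟨s, C, hs, hsq, fun k θ y hθ hsum => h3 k θ y hθ hsum, fun θ y hθ => ?_⟩
  obtain ⟨E, hE, h5⟩ := h4 θ y hθ
  refine ⟨E, hE, fun x hx => ?_⟩
  obtain ⟨q₀, h6⟩ := h5 x hx
  exact ⟨q₀, fun A hA hcl => h6 A hA (hcl 0)⟩

end Pool.Agent.Results.MP_bde085_nt.SzpiroAtDenominators
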