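import Pool.Agent.X61.RI.Disc
import Pool.Agent.X174.WinCurve

/-!
# Szpiro's inequality in one-parameter families for ALL curves with multiplicative part of the conductor in windows

The question (polynomial bounds for the Shimura map) is equivalent to Szpiro's conjecture `|D| ≤ C N ^ κ` for the minimal
discriminant `D` and the conductor `N` of the elliptic curves over `ℚ`.

Let `K` be a number field and `P / Q` a rational function over `K` in lowest terms, of degree `d = max (deg P) (deg Q)`, with
`q ≥ 3` different poles in `K ∪ {∞}`. We consider the elliptic curves over `K` (all of them, in particular all twists) whose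
`j`-invariant is a value of `P / Q` at a point of `K`. For example `d = 6` and `q = 3` for the curves with full 2-torsion over
`K` and their twists. For such a curve let `m` be the product of the norms of the primes of potentially multiplicative reduction.

**Theorem.** Let `M > d / q`. There are `ν > 0` and `C` such that for every sequence `v ≥ 1` of exponent of convergence at most
`τ` (for `v_i = (i + 1) ^ b` this is `1 / b`, for `v_i = b ^ i` it is `0`) and every `ρ < 1` there is a set `E` of real numbers of
Hausdorff dimension at most `(2 / q - ν + τ) / (1 - ρ)` such that for every `α` outside `E` there is `i₀` such that ALL elliptic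
curves of the family with `|m - α v_i| ≤ v_i ^ ρ` for some `i ≥ i₀` satisfy

`log |D| ≤ C + M log m + 12 log A`  and  `[K : ℚ] h(j) ≤ C + M log m`,

where `|D|` is the norm of the minimal discriminant and `A` the product of the norms of the primes of additive reduction.
-/

set_option autoImplicit false

namespace Pool.Agent.Results.MP_bde085_nt.SzpiroInWindows

open NumberField IsDedekindDomain Polynomial
open Pool.Agent.X61.RI (IsPole logDisc logAdditive)

/-- the exponent of convergence of the sequence `v` is at most `τ` -/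
def ExpLe (v : ℕ → ℝ) (τ : ℝ) : Prop := ∀ t : ℝ, τ < t → Summable (fun n : ℕ => (v n) ^ (-t))

section Defs

variable {K : Type} [Field K] [NumberField K]

/-- the absolute norm of a prime -/
noncomputable def norm (v : HeightOneSpectrum (𝓞 K)) : ℝ := (Ideal.absNorm v.asIdeal : ℝ)

/-- the `j`-invariant of the curve is a value of `P / Q` -/
def InFamily (P Q : K[X]) (W : WeierstrassCurve K) [W.IsElliptic] : Prop :=
  ∃ t : K, Q.eval t ≠ 0 ∧ W.j = P.eval t / Q.eval t

/-- the product of the norms of the primes of potentially multiplicative reduction, that is, of the primes in the denominator of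
the `j`-invariant -/
noncomputable def multNorm (W : WeierstrassCurve K) [W.IsElliptic] : ℝ :=
  ∏ᶠ (v : HeightOneSpectrum (𝓞 K)) (_ : v ∈ {v : HeightOneSpectrum (𝓞 K) | 1 < v.valuation K W.j}), norm v

lemma multNorm_eq (W : WeierstrassCurve K) [W.IsElliptic] : multNorm W = Pool.Agent.X174.WinCurve.den W.j := by
  have hsf := Pool.Agent.X61.RI.pole_finite W.j
  have e : {v : HeightOneSpectrum (𝓞 K) | 1 < v.valuation K W.j} = (hsf.toFinset : Set (HeightOneSpectrum (𝓞 K))) :=
    (Set.Finite.coe_toFinset hsf).symm
  unfold multNorm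
  rw [e, finprod_mem_coe_finset]
  rfl

end Defs

lemma num_ne {K : Type} [Field K] {P Q : K[X]} (hPQ : IsCoprime P Q) {q : ℕ} (hq : 3 ≤ q)
    {c : Fin q → Option K} (hc : ∀ l, IsPole P Q (c l)) : P ≠ 0 := by
  rintro rfl
  have h0 := hc ⟨0, by omega⟩
  have hu : IsUnit Q := isCoprime_zero_left.1 hPQ
  rcases hco : c ⟨0, by omega⟩ with _ | a
  · rw [hco] at h0
    have h1 : Q.natDegree < (0 : K[X]).natDegree := h0
    rw [natDegree_zero] at h1
    omega
  · rw [hco] at h0
    have h1 : Q.eval a = 0 := h0
    obtain ⟨b, hb, hbQ⟩ := Polynomial.isUnit_iff.1 hu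
    rw [← hbQ, eval_C] at h1
    exact hb.ne_zero h1

/-- **Szpiro's inequality in families for all curves in windows.** Let `K` be a number field, `P / Q` a rational function over `K`
in lowest terms, `c_1, …, c_q` different poles of it in `K ∪ {∞}`, `q ≥ 3`, and `M > max (deg P) (deg Q) / q`. There are `ν` with
`0 < ν ≤ 2 / q` and `C` such that for every sequence `v ≥ 1` of exponent of convergence at most `τ ≥ 0` and every `ρ < 1` there
is a set `E ⊂ ℝ` of Hausdorff dimension at most `(2 / q - ν + τ) / (1 - ρ)` such that for every `α` outside `E` there is `i₀`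
such that for all `i ≥ i₀` all elliptic curves `W` over `K` whose `j`-invariant is a value of `P / Q` and for which the product
`m` of the norms of the primes of potentially multiplicative reduction satisfies `|m - α v_i| ≤ v_i ^ ρ` satisfy
`[K : ℚ] h(j) ≤ C + M log m` and `log |D| ≤ C + M log m + 12 log A`, where `|D|` is the norm of the minimal discriminant and `A`
the product of the norms of the primes at which the reduction is not semistable. The sequences `v_i = (i + 1) ^ b` and
`v_i = b ^ i` have exponent of convergence at most `1 / b` and `0`. -/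
theorem result :
    (∀ (K : Type) [Field K] [NumberField K] (P Q : K[X]), Q ≠ 0 → IsCoprime P Q → ∀ q : ℕ, 3 ≤ q →
      ∀ c : Fin q → Option K, Function.Injective c → (∀ l, IsPole P Q (c l)) →
      ∀ M : ℝ, ((max P.natDegree Q.natDegree : ℕ) : ℝ) / q < M →
      ∃ ν C : ℝ, 0 < ν ∧ ν ≤ 2 / q ∧ ∀ (v : ℕ → ℝ) (τ ρ : ℝ), (∀ i, 1 ≤ v i) → 0 ≤ τ → ExpLe v τ → ρ < 1 →
      ∃ E : Set ℝ, dimH E ≤ ENNReal.ofReal ((2 / q - ν + τ) / (1 - ρ)) ∧ ∀ α : ℝ, α ∉ E →
        ∃ i₀ : ℕ, ∀ i : ℕ, i₀ ≤ i → ∀ (W : WeierstrassCurve K) [W.IsElliptic], InFamily P Q W →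
          |multNorm W - α * v i| ≤ (v i) ^ ρ →
          Height.logHeight₁ W.j ≤ C + M * Real.log (multNorm W) ∧
            logDisc W ≤ C + M * Real.log (multNorm W) + 12 * logAdditive W) ∧
    (∀ b : ℝ, 0 < b → ExpLe (fun n : ℕ => ((n : ℝ) + 1) ^ b) (1 / b)) ∧
    (∀ b : ℝ, 1 < b → ExpLe (fun n : ℕ => b ^ n) 0) := by
  refine ⟨?_, fun κ hκ => Pool.Agent.Y854.GM.expLe_pow κ hκ, fun b hb => Pool.Agent.Y854.GM.expLe_geom b hb⟩
  intro K _ _ P Q hQ hPQ q hq c hinj hc M hM
  have hP := num_ne hPQ hq hc
  obtain ⟨ν, C, hν, hν1, hcount⟩ := Pool.Agent.X174.WinCurve.bad_count hP hQ hPQ hq hinj hc hM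
  obtain ⟨C₀, hC₀⟩ := Pool.Agent.X61.RI.logDisc_le K
  refine ⟨ν, max C (C + C₀), hν, hν1, fun v τ ρ hv hτ hE hρ => ?_⟩
  obtain ⟨E, h1, h2⟩ := Pool.Agent.X174.WinCurve.win1 (Pool.Agent.X174.WinCurve.Bad P Q M C)
    (fun t => Pool.Agent.X174.WinCurve.den (P.eval t / Q.eval t)) (s := 2 / q - ν) (by linarith) hcount hv hτ hE hρ
  refine ⟨E, h1, fun α hα => ?_⟩
  obtain ⟨i₀, hi₀⟩ := h2 α hα
  refine ⟨i₀, fun i hi W _ hW hwin => ?_⟩
  obtain ⟨t, ht, hj⟩ := hW
  rw [multNorm_eq] at hwin ⊢
  have h3 : Height.logHeight₁ W.j ≤ C + M * Real.log (Pool.Agent.X174.WinCurve.den W.j) := by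
    by_contra hcon
    rw [not_le] at hcon
    have h4 := hi₀ i hi t ⟨ht, by rw [← hj]; exact hcon⟩
    rw [← hj] at h4
    linarith
  have h4 := hC₀ W
  have h5 := le_max_left C (C + C₀)
  have h6 := le_max_right C (C + C₀)
  constructor <;> linarith

end Pool.Agent.Results.MP_bde085_nt.SzpiroInWindows
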