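import Pool.Agent.X61.RI.Disc
import Pool.Agent.X174.WinCurve
import Pool.Agent.X16.NW.F

/-!
# Szpiro's inequality in one-parameter families for ALL curves with multiplicative part of the conductor near real powers

The question (polynomial bounds for the Shimura map) is equivalent to Szpiro's conjecture `|D| ≤ C N ^ κ` for the minimal
discriminant `D` and the conductor `N` of the elliptic curves over `ℚ`.

Let `K` be a number field and `P / Q` a rational function over `K` in lowest terms, of degree `d = max (deg P) (deg Q)`, with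
`q ≥ 3` different poles in `K ∪ {∞}`, and `M > d / q`. We consider the elliptic curves over `K` (all of them, in particular all
twists) whose `j`-invariant is a value of `P / Q` at a point of `K`, for example (`d = 6`, `q = 3`) those with full 2-torsion and
their twists. For such a curve let `m` be the product of the norms of the primes of potentially multiplicative reduction.

We show that for almost all real numbers `t > 1` (all outside a set of small Hausdorff dimension) ALL these curves with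
`|m - t ^ κ_i| ≤ t ^ (θ κ_i)` for some large `i` satisfy `log |D| ≤ C + M log m + 12 log A` and `[K : ℚ] h(j) ≤ C + M log m`
(`|D|` the norm of the minimal discriminant, `A` the product of the norms of the primes of additive reduction), and so for `i ^ t`
and for all locally expanding families of functions of `t`. The team's `SzpiroInWindows` is about the linear families `α v_i`.
-/

set_option autoImplicit false

namespace Pool.Agent.Results.MP_bde085_nt.SzpiroNearRealPowers

open NumberField IsDedekindDomain Polynomial Filter Topology MeasureTheory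
open Pool.Agent.X61.RI (IsPole logDisc logAdditive)
open Pool.Agent.X16.NW (LocExpanding loc_rpow loc_npow windows_loc null_of_dim)

section Defs

variable {K : Type} [Field K] [NumberField K]

/-- the absolute norm of a prime -/
noncomputable def norm (v : HeightOneSpectrum (𝓞 K)) : ℝ := (Ideal.absNorm v.asIdeal : ℝ)

/-- the `j`-invariant of the curve is a value of `P / Q` -/
def InFamily (P Q : K[X]) (W : WeierstrassCurve K) [W.IsElliptic] : Prop :=
  ∃ t : K, Q.eval t ≠ 0 ∧ W.j = P.eval t / Q.eval t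

/-- the product of the norms of the primes of potentially multiplicative reduction, that is, of the primes in the denominator of
the `j`-invariant -/
noncomputable def multNorm (W : WeierstrassCurve K) [W.IsElliptic] : ℝ :=
  ∏ᶠ (v : HeightOneSpectrum (𝓞 K)) (_ : v ∈ {v : HeightOneSpectrum (𝓞 K) | 1 < v.valuation K W.j}), norm v

lemma multNorm_eq (W : WeierstrassCurve K) [W.IsElliptic] : multNorm W = Pool.Agent.X174.WinCurve.den W.j := by
  have hsf := Pool.Agent.X61.RI.pole_finite W.j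
  have e : {v : HeightOneSpectrum (𝓞 K) | 1 < v.valuation K W.j} = (hsf.toFinset : Set (HeightOneSpectrum (𝓞 K))) :=
    (Set.Finite.coe_toFinset hsf).symm
  unfold multNorm
  rw [e, finprod_mem_coe_finset]
  rfl

/-- Szpiro's inequality (and the bound for the height of the `j`-invariant) with the exponent `M` and the constant `C` for ALL
curves of the family with `|m - w_i| ≤ w_i ^ θ` for some `i ≥ i₀` -/
def SzpiroNear (P Q : K[X]) (M C θ : ℝ) (w : ℕ → ℝ) (i₀ : ℕ) : Prop :=
  ∀ i : ℕ, i₀ ≤ i → ∀ (W : WeierstrassCurve K) [W.IsElliptic], InFamily P Q W →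
    |multNorm W - w i| ≤ (w i) ^ θ →
    Height.logHeight₁ W.j ≤ C + M * Real.log (multNorm W) ∧
      logDisc W ≤ C + M * Real.log (multNorm W) + 12 * logAdditive W

/-- `SzpiroNear` for the windows around the `f_i(t)`, for all `t` in `I` outside a set of dimension at most `s` -/
def Most (P Q : K[X]) (M C θ : ℝ) (f : ℕ → ℝ → ℝ) (I : Set ℝ) (s : ℝ) : Prop :=
  ∃ E : Set ℝ, dimH E ≤ ENNReal.ofReal s ∧ ∀ t ∈ I, t ∉ E → ∃ i₀ : ℕ, SzpiroNear P Q M C θ (fun i => f i t) i₀

end Defs

lemma num_ne {K : Type} [Field K] {P Q : K[X]} (hPQ : IsCoprime P Q) {q : ℕ} (hq : 3 ≤ q)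
    {c : Fin q → Option K} (hc : ∀ l, IsPole P Q (c l)) : P ≠ 0 := by
  rintro rfl
  have h0 := hc ⟨0, by omega⟩
  have hu : IsUnit Q := isCoprime_zero_left.1 hPQ
  rcases hco : c ⟨0, by omega⟩ with _ | a
  · rw [hco] at h0
    have h1 : Q.natDegree < (0 : K[X]).natDegree := h0
    rw [natDegree_zero] at h1
    omega
  · rw [hco] at h0
    have h1 : Q.eval a = 0 := h0
    obtain ⟨b, hb, hbQ⟩ := Polynomial.isUnit_iff.1 hu
    rw [← hbQ, eval_C] at h1
    exact hb.ne_zero h1

theorem families (K : Type) [Field K] [NumberField K] (P Q : K[X]) (hQ : Q ≠ 0) (hPQ : IsCoprime P Q) (q : ℕ)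
    (hq : 3 ≤ q) (c : Fin q → Option K) (hinj : Function.Injective c) (hc : ∀ l, IsPole P Q (c l)) (M : ℝ)
    (hM : ((max P.natDegree Q.natDegree : ℕ) : ℝ) / q < M) :
    ∃ ν C : ℝ, 0 < ν ∧ ν ≤ 2 / q ∧ ∀ (θ : ℝ), 0 ≤ θ → θ < 1 → ∀ (f : ℕ → ℝ → ℝ) (I : Set ℝ) (τ : ℝ), 0 ≤ τ →
      LocExpanding f I τ → Most P Q M C θ f I ((2 / (q : ℝ) - ν + τ) / (1 - θ)) := by
  have hP := num_ne hPQ hq hc
  obtain ⟨ν, C, hν, hν1, hcount⟩ := Pool.Agent.X174.WinCurve.bad_count hP hQ hPQ hq hinj hc hM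
  obtain ⟨C₀, hC₀⟩ := Pool.Agent.X61.RI.logDisc_le K
  refine ⟨ν, max C (C + C₀), hν, hν1, fun θ hθ0 hθ1 f I τ hτ hf => ?_⟩
  obtain ⟨E, h1, h2⟩ := windows_loc (Pool.Agent.X174.WinCurve.Bad P Q M C)
    (fun t => Pool.Agent.X174.WinCurve.den (P.eval t / Q.eval t)) (s := 2 / (q : ℝ) - ν) hτ (by linarith) hθ0 hθ1
    hcount I f hf
  refine ⟨E, h1, fun t₀ ht₀ ht₀E => ?_⟩
  obtain ⟨i₀, hi₀⟩ := h2 t₀ ht₀ ht₀E
  refine ⟨i₀, fun i hi W _ hW hwin => ?_⟩
  obtain ⟨t, ht, hj⟩ := hW
  rw [multNorm_eq] at hwin ⊢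
  have h3 : Height.logHeight₁ W.j ≤ C + M * Real.log (Pool.Agent.X174.WinCurve.den W.j) := by
    by_contra hcon
    rw [not_le] at hcon
    have h4 := hi₀ i hi t ⟨ht, by rw [← hj]; exact hcon⟩
    rw [← hj] at h4
    linarith
  have h4 := hC₀ W
  have h5 := le_max_left C (C + C₀)
  have h6 := le_max_right C (C + C₀)
  constructor <;> linarith

/-- **Theorem.** Let `K` be a number field, `P / Q` a rational function over `K` in lowest terms, `c_1, …, c_q` different poles of
it in `K ∪ {∞}`, `q ≥ 3`, and `M > max (deg P) (deg Q) / q`. There are `ν` with `0 < ν ≤ 2 / q` and `C` such that for all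
`0 ≤ θ < 1`, with `s = 2 / q - ν`:
(1) For every locally expanding family `f_i` on `I` with exponent `τ ≥ 0` and all `t ∈ I` outside a set of Hausdorff dimension
at most `(s + τ) / (1 - θ)` there is `i₀` such that ALL elliptic curves over `K` whose `j`-invariant is a value of `P / Q` and with
`|m - f_i(t)| ≤ f_i(t) ^ θ` for some `i ≥ i₀`, `m` the product of the norms of the primes of potentially multiplicative reduction,
satisfy `[K : ℚ] h(j) ≤ C + M log m` and `log |D| ≤ C + M log m + 12 log A`.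
(2) If `κ_i / log i → ∞` this is so for `t ^ κ_i`, `t > 1`, outside a set of dimension at most `s / (1 - θ)`, and (3) for
`i ^ t`, `t ≥ b > 0`, outside a set of dimension at most `(s + 1 / b) / (1 - θ)`.
(4) If `s + θ < 1` this is so for `t ^ κ_i` for almost all `t > 1`, and (5) for `i ^ t` for almost all `t > 1 / (1 - s - θ)`. -/
theorem result (K : Type) [Field K] [NumberField K] (P Q : K[X]) (hQ : Q ≠ 0) (hPQ : IsCoprime P Q) (q : ℕ)
    (hq : 3 ≤ q) (c : Fin q → Option K) (hinj : Function.Injective c) (hc : ∀ l, IsPole P Q (c l)) (M : ℝ)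
    (hM : ((max P.natDegree Q.natDegree : ℕ) : ℝ) / q < M) :
    ∃ ν C : ℝ, 0 < ν ∧ ν ≤ 2 / q ∧ ∀ θ : ℝ, 0 ≤ θ → θ < 1 →
      (∀ (f : ℕ → ℝ → ℝ) (I : Set ℝ) (τ : ℝ), 0 ≤ τ → LocExpanding f I τ →
        Most P Q M C θ f I ((2 / (q : ℝ) - ν + τ) / (1 - θ))) ∧
      (∀ m : ℕ → ℝ, Tendsto (fun i : ℕ => m i / Real.log i) atTop atTop →
        Most P Q M C θ (fun i t => t ^ m i) (Set.Ioi 1) ((2 / (q : ℝ) - ν) / (1 - θ))) ∧
      (∀ b : ℝ, 0 < b →
        Most P Q M C θ (fun i t => (i : ℝ) ^ t) (Set.Ici b) ((2 / (q : ℝ) - ν + 1 / b) / (1 - θ))) ∧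
      (2 / (q : ℝ) - ν + θ < 1 →
        (∀ m : ℕ → ℝ, Tendsto (fun i : ℕ => m i / Real.log i) atTop atTop →
          ∀ᵐ t : ℝ, 1 < t → ∃ i₀ : ℕ, SzpiroNear P Q M C θ (fun i => t ^ m i) i₀) ∧
        (∀ᵐ t : ℝ, 1 / (1 - (2 / (q : ℝ) - ν) - θ) < t →
          ∃ i₀ : ℕ, SzpiroNear P Q M C θ (fun i => (i : ℝ) ^ t) i₀)) := by
  obtain ⟨ν, C, hν, hνq, h⟩ := families K P Q hQ hPQ q hq c hinj hc M hM
  refine ⟨ν, C, hν, hνq, fun θ hθ0 hθ1 => ?_⟩
  have hpow : ∀ m : ℕ → ℝ, Tendsto (fun i : ℕ => m i / Real.log i) atTop atTop →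
        Most P Q M C θ (fun i t => t ^ m i) (Set.Ioi 1) ((2 / (q : ℝ) - ν) / (1 - θ)) := by
    intro m hm
    have h1 := h θ hθ0 hθ1 _ _ 0 le_rfl (loc_rpow m hm)
    rwa [add_zero] at h1
  have hnpow : ∀ b : ℝ, 0 < b →
        Most P Q M C θ (fun i t => (i : ℝ) ^ t) (Set.Ici b) ((2 / (q : ℝ) - ν + 1 / b) / (1 - θ)) :=
    fun b hb => h θ hθ0 hθ1 _ _ _ (one_div_pos.2 hb).le (loc_npow b hb)
  refine ⟨h θ hθ0 hθ1, hpow, hnpow, fun hs => ?_⟩
  set s : ℝ := 2 / (q : ℝ) - ν with hsdef
  have hs0 : 0 ≤ s := by rw [hsdef]; linarith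
  have hd : 0 < 1 - s - θ := by linarith
  have hae : ∀ {E : Set ℝ} {r : ℝ}, r < 1 → dimH E ≤ ENNReal.ofReal r → ∀ᵐ t : ℝ, t ∉ E := by
    intro E r hr hE
    rw [ae_iff]
    simpa using null_of_dim hr hE
  refine ⟨fun m hm => ?_, ?_⟩
  · obtain ⟨E, hE, h2⟩ := hpow m hm
    filter_upwards [hae (by rw [div_lt_one (by linarith)]; linarith) hE] with t ht ht1
    exact h2 t ht1 ht
  · have key : ∀ k : ℕ, ∀ᵐ t : ℝ, 1 / (1 - s - θ) + 1 / ((k : ℝ) + 1) ≤ t →
        ∃ i₀ : ℕ, SzpiroNear P Q M C θ (fun i => (i : ℝ) ^ t) i₀ := by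
      intro k
      set b : ℝ := 1 / (1 - s - θ) + 1 / ((k : ℝ) + 1) with hb
      have hb0 : 0 < b := by positivity
      obtain ⟨E, hE, h2⟩ := hnpow b hb0
      have h3 : 1 / b < 1 - s - θ := by
        rw [div_lt_iff₀ hb0, hb, mul_add, mul_one_div_cancel hd.ne']
        have : 0 < (1 - s - θ) * (1 / ((k : ℝ) + 1)) := by positivity
        linarith
      filter_upwards [hae (by rw [div_lt_one (by linarith)]; linarith) hE] with t ht ht1
      exact h2 t ht1 ht
    filter_upwards [ae_all_iff.2 key] with t ht ht1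
    obtain ⟨k, hk⟩ := exists_nat_one_div_lt (sub_pos.2 ht1)
    exact ht k (by linarith)

end Pool.Agent.Results.MP_bde085_nt.SzpiroNearRealPowers
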