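import Pool.Agent.X61.RI.Disc

/-!
# Szpiro's inequality in one-parameter families, with an infinite random set of primes

The question (polynomial bounds for the Shimura map) is equivalent to Szpiro's conjecture
`|D| ≤ C N ^ κ` for the minimal discriminant `D` and the conductor `N` of the elliptic curves
over `ℚ`.

Let `K` be a number field and `P / Q` a rational function over `K` in lowest terms, of degree
`d = max (deg P) (deg Q)`, with `q ≥ 3` different poles in `K ∪ {∞}`. We consider the elliptic curves
over `K` (all of them, in particular all twists) whose `j`-invariant is a value of `P / Q` at a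
point of `K`. For the `j`-invariant as a function of a parameter of a modular curve of genus `0`,
`d` is the degree of the `j`-invariant and `q` the number of the cusps defined over `K`. For example
`d = 6` and `q = 3` for the curves with full 2-torsion over `K` and their twists.

Let `M > d / q`. There is a `ν > 0`, which depends on `P`, `Q`, `M` and `K` only, such that the
following holds for all `τ ≥ 0`, `τ > 2/q - ν`, and every random set `T` of primes of `K` (the events
`v ∈ T` are independent and of probability at most `N(v) ^ (-τ)`; for `τ ≤ 1` the set `T` can be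
infinite). With probability one, for ALL finite sets `S` of primes there is a constant `C` such that
all elliptic curves of the family whose `j`-invariant is integral at all primes outside `S ∪ T`
satisfy

`log |D| ≤ C + M log R + 12 log A`,

where `|D|` is the norm of the minimal discriminant, `R` the product of the norms of all primes of
bad reduction and `A` the product of the norms of the primes of additive reduction. The conductor
`N` is divisible by the product of these primes of bad reduction and those of additive reduction,
so this is Szpiro's inequality with the exponent `max(M, 6 + M/2)`, and with the exponent `M` if the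
reduction is semistable. Also `[K : ℚ] h(j) ≤ C + M log R`.
-/

set_option autoImplicit false

namespace Pool.Agent.Results.MP_bde085_nt.SzpiroRandomPrimes

open NumberField IsDedekindDomain MeasureTheory ProbabilityTheory Polynomial
open Pool.Agent.X61.RI (IsPole GoodAt SemistableAt logDisc logBad logAdditive)

section Defs

variable {K : Type} [Field K] [NumberField K]

/-- the absolute norm of a prime -/
noncomputable def norm (v : HeightOneSpectrum (𝓞 K)) : ℝ := (Ideal.absNorm v.asIdeal : ℝ)

/-- the `j`-invariant of the curve is a value of `P / Q` -/
def InFamily (P Q : K[X]) (W : WeierstrassCurve K) [W.IsElliptic] : Prop :=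
  ∃ t : K, Q.eval t ≠ 0 ∧ W.j = P.eval t / Q.eval t

end Defs

/-- **Szpiro's inequality in families and infinite random sets of primes.** Let `K` be a number
field, `P / Q` a rational function over `K` in lowest terms, `c_1, …, c_q` different poles of it in
`K ∪ {∞}`, `q ≥ 3`, and `M > max (deg P) (deg Q) / q`. There is `ν > 0` such that the following holds
for all `τ ≥ 0` with `τ > 2/q - ν` and all independent events `E v` (`v` a prime of `K`) of
probability at most `N(v) ^ (-τ)`. Let `T = {v | ω ∈ E v}`. With probability one for every finite
set `S` of primes there is a constant `C` such that all elliptic curves `W` over `K` whose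
`j`-invariant is a value of `P / Q` and has in its denominator only primes of `S ∪ T` satisfy
`[K : ℚ] h(j) ≤ C + M log R` and `log |D| ≤ C + M log R + 12 log A`, where `|D|` is the norm of the
minimal discriminant, `R` the product of the norms of the primes of bad reduction and `A` the product
of the norms of the primes at which the reduction is not semistable. -/
theorem result (K : Type) [Field K] [NumberField K] (P Q : K[X]) (hQ : Q ≠ 0)
    (hPQ : IsCoprime P Q) (q : ℕ) (hq : 3 ≤ q) (c : Fin q → Option K)
    (hinj : Function.Injective c) (hc : ∀ l, IsPole P Q (c l)) (M : ℝ)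
    (hM : ((max P.natDegree Q.natDegree : ℕ) : ℝ) / q < M) :
    ∃ ν : ℝ, 0 < ν ∧ ∀ τ : ℝ, 0 ≤ τ → 2 / (q : ℝ) - ν < τ →
    ∀ (Ω : Type) [MeasurableSpace Ω] (μ : Measure Ω) (E : HeightOneSpectrum (𝓞 K) → Set Ω),
      iIndepSet E μ → (∀ v, μ (E v) ≤ ENNReal.ofReal (norm v ^ (-τ))) →
      ∀ᵐ ω ∂μ, ∀ S : Finset (HeightOneSpectrum (𝓞 K)), ∃ C : ℝ,
        ∀ (W : WeierstrassCurve K) [W.IsElliptic], InFamily P Q W →
        (∀ v : HeightOneSpectrum (𝓞 K), 1 < v.valuation K W.j → v ∈ S ∨ ω ∈ E v) →
        Height.logHeight₁ W.j ≤ C + M * logBad W ∧
          logDisc W ≤ C + M * logBad W + 12 * logAdditive W := by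
  have hP : P ≠ 0 := by
    rintro rfl
    have h0 := hc ⟨0, by omega⟩
    have hu : IsUnit Q := isCoprime_zero_left.1 hPQ
    rcases hco : c ⟨0, by omega⟩ with _ | a
    · rw [hco] at h0
      have h1 : Q.natDegree < (0 : K[X]).natDegree := h0
      rw [natDegree_zero] at h1
      omega
    · rw [hco] at h0
      have h1 : Q.eval a = 0 := h0
      obtain ⟨b, hb, hbQ⟩ := Polynomial.isUnit_iff.1 hu
      rw [← hbQ, eval_C] at h1
      exact hb.ne_zero h1
  have hM0 : 0 ≤ M := by
    have h1 : (0 : ℝ) ≤ ((max P.natDegree Q.natDegree : ℕ) : ℝ) / q := by positivity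
    linarith
  obtain ⟨ν, hν, h⟩ := Pool.Agent.X61.RI.fam_szpiro hP hQ hPQ hq hinj hc hM
  obtain ⟨C₀, hC₀⟩ := Pool.Agent.X61.RI.logDisc_le K
  refine ⟨ν, hν, fun τ hτ0 hτ Ω _ μ E hi hE => ?_⟩
  filter_upwards [h τ hτ0 hτ μ E hi hE] with ω hω S
  obtain ⟨C, hC⟩ := hω S
  refine ⟨max C (C + C₀), fun W _ hW hv => ?_⟩
  obtain ⟨t, ht, hj⟩ := hW
  have h1 := hC t ht (by rw [← hj]; exact hv)
  rw [← hj] at h1
  have h2 := mul_le_mul_of_nonneg_left (Pool.Agent.X61.RI.poles_le W) hM0
  have h3 := h1.trans (add_le_add le_rfl h2)
  have h4 := hC₀ W
  have h5 := le_max_left C (C + C₀)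
  have h6 := le_max_right C (C + C₀)
  constructor <;> linarith

end Pool.Agent.Results.MP_bde085_nt.SzpiroRandomPrimes
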